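import Pool.Agent.ZP3.StmtsP

/-!
Squad ZP3, row F3A: bounded level.
-/

set_option autoImplicit false

namespace Pool.Agent.ZP3.H13

open Polynomial Pool.Agent.ZPT

noncomputable section

lemma evQ_map {K : Type} [Field K] (ι : Qb →+* K) (G : Qb[X][X]) (x y : Qb) :
    evQ ι G (ι x) (ι y) = ι (evQ (RingHom.id Qb) G x y) := by
  have h1 : Polynomial.eval₂RingHom ι (ι x) =
      ι.comp (Polynomial.eval₂RingHom (RingHom.id Qb) x) := by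
    refine Polynomial.ringHom_ext ?_ ?_
    · intro a
      simp
    · simp
  unfold evQ
  rw [Polynomial.eval_map, Polynomial.eval_map, Polynomial.hom_eval₂, h1]

lemma exeps (p k : ℕ) (hp : 1 < p) (hk : 1 ≤ k) :
    ∃ ε : ℝ, ε < 1 ∧ ∀ y : ℝ, 0 ≤ y → y ^ k ≤ (p : ℝ)⁻¹ → y ≤ ε := by
  have hp0 : (0 : ℝ) < (p : ℝ)⁻¹ := by
    have h1 : (0 : ℝ) < p := by exact_mod_cast (by omega : 0 < p)
    positivity
  have hp1 : (p : ℝ)⁻¹ < 1 := inv_lt_one_of_one_lt₀ (by exact_mod_cast hp)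
  have hk0 : (0 : ℝ) < (k : ℝ)⁻¹ := by
    have h1 : (0 : ℝ) < k := by exact_mod_cast (by omega : 0 < k)
    positivity
  refine ⟨((p : ℝ)⁻¹) ^ ((k : ℝ)⁻¹), Real.rpow_lt_one hp0.le hp1 hk0, fun y hy h => ?_⟩
  have h2 : (((p : ℝ)⁻¹) ^ ((k : ℝ)⁻¹)) ^ k = (p : ℝ)⁻¹ :=
    Real.rpow_inv_natCast_pow hp0.le (by omega)
  rw [← h2] at h
  exact le_of_pow_le_pow_left₀ (by omega) (Real.rpow_nonneg hp0.le _) h

/-- F3A -/
theorem f3a (pln : PLNStmt) (ppt : PPTStmt) (bet : BETStmt) (ntp : NTPStmt) (loc3 : LOC3Stmt)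
    (urr : URRStmt) (hNN : NNStmt) (hIK : IKStmt) (hIS : ISStmt) (hKT : KTStmt) (hTI : TIStmt)
    (hTQ : TQStmt) (hEH : EHStmt) : F3AStmt := by
  classical
  intro U Psi hU hPC n P hP hdim hQ hNT
  choose G hG0 hG using pln n P hP hdim hQ
  have hppt0 := fun i j => ppt (G i j) (hG0 i j)
  choose e L r A p1 he her hA0 hppt using hppt0
  have hbet0 := fun i j => bet (G i j) (hG0 i j)
  choose B k p2 hk hbet using hbet0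
  obtain ⟨p3, hntp⟩ := ntp n P hQ hNT
  obtain ⟨P1, hP1⟩ : ∃ M, ∀ i j, p1 i j ≤ M := by
    obtain ⟨M, hM⟩ := Finite.exists_le (fun w : Fin n × Fin n => p1 w.1 w.2)
    exact ⟨M, fun i j => hM (i, j)⟩
  obtain ⟨P2, hP2⟩ : ∃ M, ∀ i j, p2 i j ≤ M := by
    obtain ⟨M, hM⟩ := Finite.exists_le (fun w : Fin n × Fin n => p2 w.1 w.2)
    exact ⟨M, fun i j => hM (i, j)⟩
  obtain ⟨P4, hP4⟩ : ∃ M, ∀ i j l, r i j l ≤ M := by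
    obtain ⟨M, hM⟩ := Finite.exists_le
      (fun w : (w : Fin n × Fin n) × Fin (L w.1 w.2) => r w.1.1 w.1.2 w.2)
    exact ⟨M, fun i j l => hM ⟨(i, j), l⟩⟩
  refine ⟨7 + P1 + P2 + p3 + 6 * P4,
    Finset.univ.biUnion fun w : Fin n × Fin n =>
      Finset.univ.image fun l : Fin (L w.1 w.2) => A w.1 w.2 l 0, ?_⟩
  intro p hp hpp K _ _ _ _ _ hExt hPK ι c hc hcE
  have hp5 : 5 ≤ p := by omega
  have hpR : (0 : ℝ) < p := by exact_mod_cast hp.pos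
  have hp1R : (1 : ℝ) < p := by exact_mod_cast hp.one_lt
  have hpK : (p : K) ≠ 0 := by exact_mod_cast hp.ne_zero
  have hpn : ‖(p : K)‖ = (p : ℝ)⁻¹ := by
    have h := hExt (p : ℚ)
    rw [padicNorm.padicNorm_p hp.one_lt] at h
    push_cast at h
    exact h
  -- the numbers `g i`
  obtain ⟨g, hgd⟩ : ∃ g : Fin n → K, ∀ i, g i = (p : K) * ((c i : ℚ) : K) := ⟨_, fun _ => rfl⟩
  have hgc : ∀ i, g i / (p : K) = ((c i : ℚ) : K) := by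
    intro i
    rw [hgd]
    field_simp
  have hg : ∀ i, Uu p (g i) := by
    intro i
    have h1 : ‖g i‖ = 1 := by
      rw [hgd, norm_mul, hpn, hc, inv_mul_cancel₀ hpR.ne']
    refine ⟨?_, h1⟩
    have h2 : g i = (((p : ℚ) * c i : ℚ) : K) := by
      rw [hgd]
      push_cast
      rfl
    rw [h2]
    refine (urr p hp K hExt).2.1 _ ?_
    have h3 := hExt ((p : ℚ) * c i)
    rw [← h2, h1] at h3
    have h4 : padicNorm p ((p : ℚ) * c i) = 1 := by exact_mod_cast h3.symm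
    exact h4.le
  have hgg : ∀ i j, i ≠ j → ∀ b a (l : Fin (L b a)),
      ‖g i - ι (A b a l 0) * g j‖ = 1 := by
    intro i j hij b a l
    have h1 := hcE i j hij (A b a l 0) (Finset.mem_biUnion.2 ⟨(b, a), Finset.mem_univ _,
      Finset.mem_image.2 ⟨l, Finset.mem_univ _, rfl⟩⟩)
    have h2 : g i - ι (A b a l 0) * g j =
        (p : K) * (((c i : ℚ) : K) - ι (A b a l 0) * ((c j : ℚ) : K)) := by
      rw [hgd, hgd]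
      ring
    rw [h2, norm_mul, hpn, h1, inv_mul_cancel₀ hpR.ne']
  have hcq : ∀ i, ι ((c i : ℚ) : Qb) = ((c i : ℚ) : K) := fun i => map_ratCast ι _
  have hc1 : ∀ i, 1 < ‖ι ((c i : ℚ) : Qb)‖ := by
    intro i
    rw [hcq, hc]
    exact hp1R
  -- level of two near coordinates
  have hlev : ∀ u v : Fin n, ∃ s t : ℕ, 1 ≤ s ∧ 1 ≤ t ∧
      ∀ f f' q q' : K, ‖f‖ ≤ 1 → ‖f'‖ ≤ 1 → 0 < ‖q‖ → ‖q‖ < 1 → 0 < ‖q'‖ → ‖q'‖ < 1 →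
      jv U q = f + ι ((c u : ℚ) : Qb) → jv U q' = f' + ι ((c v : ℚ) : Qb) →
      (∃ A B : ℕ, 1 ≤ A ∧ 1 ≤ B ∧ q ^ A = q' ^ B) → q ^ s = q' ^ t := by
    intro u v
    exact hNN U hU p hp hp5 K hExt ι 1 (le_refl _) _ _ (hc1 u) (hc1 v)
  choose s t hs ht hst using hlev
  obtain ⟨N1, hN1⟩ : ∃ N, ∀ u v, s u v * t u v ≤ N := by
    obtain ⟨M, hM⟩ := Finite.exists_le (fun w : Fin n × Fin n => s w.1 w.2 * t w.1 w.2)
    exact ⟨M, fun i j => hM (i, j)⟩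
  -- equations in `K`
  have hGK : ∀ y : Fin n → Qb, (fun l => (y l : ℂ)) ∈ V P → ∀ i j,
      evQ ι (G i j) (ι (y i)) (ι (y j)) = 0 := by
    intro y hy i j
    rw [evQ_map, hG i j y hy, map_zero]
  -- level of a near coordinate and two far ones
  have hlev2 : ∀ a b w : Fin n, a ≠ b → ∃ N : ℕ, ∀ y : Fin n → Qb, (fun l => (y l : ℂ)) ∈ V P →
      ‖ι (y w)‖ ≤ 1 → 1 < ‖ι (y b)‖ → ‖ι (y b)‖ ≤ ‖ι (y a)‖ → ∀ q₁ q₂ q₃ : K,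
      0 < ‖q₁‖ → ‖q₁‖ < 1 → 0 < ‖q₂‖ → ‖q₂‖ < 1 → 0 < ‖q₃‖ → ‖q₃‖ < 1 →
      jv U q₁ = ι (y a) + ((c a : ℚ) : K) → jv U q₂ = ι (y b) + ((c b : ℚ) : K) →
      jv U q₃ = ι (y w) + ((c w : ℚ) : K) →
      (∃ A B : ℕ, 1 ≤ A ∧ 1 ≤ B ∧ q₁ ^ A = q₃ ^ B) →
      (∃ A B : ℕ, 1 ≤ A ∧ 1 ≤ B ∧ q₂ ^ A = q₃ ^ B) →
      ∃ s t : ℕ, 1 ≤ s ∧ 1 ≤ t ∧ s * t ≤ N ∧
        (q₂ ^ s = q₃ ^ t ∨ q₁ ^ s = q₃ ^ t ∨ q₁ ^ s = q₂ ^ t) := by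
    intro a b w hab
    obtain ⟨hUr, hA1, hpt⟩ := hppt b a p hp ((hP1 b a).trans (by omega)) K hExt ι
    obtain ⟨hBU, hbt⟩ := hbet b w p hp ((hP2 b w).trans (by omega)) K hExt ι
    obtain ⟨ε, hε1, hε⟩ := exeps p (k b w) hp.one_lt (hk b w)
    have hM : ∀ l : Fin (L b a), ∃ M : ℕ, 1 ≤ M ∧ ∀ t x₃ q₁ q₂ q₃ : K,
        Pt p U (e b a) (r b a l) (fun n => ι (A b a l n)) (g a) (g b) (g w) t x₃ q₁ q₂ q₃ →
        (‖t‖ ^ (e b a) = (p : ℝ)⁻¹ → ∃ β ∈ (B b w).image ι, ‖x₃ - β‖ ≤ ε) →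
        q₂ ^ M = q₃ ^ M ∨ q₁ ^ (e b a * M) = q₃ ^ (r b a l * M) ∨
          q₁ ^ (e b a * M) = q₂ ^ (r b a l * M) := by
      intro l
      refine loc3 U hU p hp K hExt (e b a) (r b a l) (fun n => ι (A b a l n)) (g a) (g b) (g w)
        ((B b w).image ι) ε (he b a) (her b a l) ?_ (fun m => hUr l m) (hA1 l) (hg a) (hg b)
        (hg w) (fun _ => hgg a b hab b a l) ?_ hε1
      · have h1 := hP4 b a l
        omega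
      · intro β hβ
        obtain ⟨β', hβ', rfl⟩ := Finset.mem_image.1 hβ
        exact hBU β' hβ'
    choose M hM1 hM2 using hM
    obtain ⟨N, hN⟩ := Finite.exists_le (fun l : Fin (L b a) =>
      M l * M l + e b a * M l * (r b a l * M l))
    refine ⟨N, ?_⟩
    intro y hy hyw hyb hyab q₁ q₂ q₃ h10 h11 h20 h21 h30 h31 hj1 hj2 hj3 hd13 hd23
    obtain ⟨l, t, ht0, ht1, hx2, hx1⟩ := hpt _ _ hyb hyab (hGK y hy b a)
    have hNl := hN l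
    have hPt : Pt p U (e b a) (r b a l) (fun n => ι (A b a l n)) (g a) (g b) (g w) t (ι (y w))
        q₁ q₂ q₃ := by
      refine ⟨ht0, ht1, hyw, h10, h11, h20, h21, h30, h31, ?_, ?_, ?_, hd13, hd23⟩
      · rw [hj1, hgc, hx1]
      · rw [hj2, hgc, hx2]
      · rw [hj3, hgc]
    have hrl : 1 ≤ r b a l := (he b a).trans (her b a l)
    have hem : 1 ≤ e b a * M l := Nat.mul_pos (he b a) (hM1 l)
    have hrm : 1 ≤ r b a l * M l := Nat.mul_pos hrl (hM1 l)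
    rcases hM2 l t _ q₁ q₂ q₃ hPt (by
      intro hte
      obtain ⟨β, hβ, hβk⟩ := hbt _ _ hyb hyw (hGK y hy b w)
      refine ⟨ι β, Finset.mem_image_of_mem _ hβ, hε _ (norm_nonneg _) ?_⟩
      refine hβk.trans (le_of_eq ?_)
      rw [hx2, norm_div, norm_one, norm_pow, hte, one_div, inv_inv]) with h | h | h
    · exact ⟨M l, M l, hM1 l, hM1 l, (Nat.le_add_right _ _).trans hNl, Or.inl h⟩
    · exact ⟨_, _, hem, hrm, (Nat.le_add_left _ _).trans hNl, Or.inr (Or.inl h)⟩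
    · exact ⟨_, _, hem, hrm, (Nat.le_add_left _ _).trans hNl, Or.inr (Or.inr h)⟩
  have hlev3 : ∀ a b w : Fin n, ∃ N : ℕ, a ≠ b → ∀ y : Fin n → Qb,
      (fun l => (y l : ℂ)) ∈ V P →
      ‖ι (y w)‖ ≤ 1 → 1 < ‖ι (y b)‖ → ‖ι (y b)‖ ≤ ‖ι (y a)‖ → ∀ q₁ q₂ q₃ : K,
      0 < ‖q₁‖ → ‖q₁‖ < 1 → 0 < ‖q₂‖ → ‖q₂‖ < 1 → 0 < ‖q₃‖ → ‖q₃‖ < 1 →
      jv U q₁ = ι (y a) + ((c a : ℚ) : K) → jv U q₂ = ι (y b) + ((c b : ℚ) : K) →
      jv U q₃ = ι (y w) + ((c w : ℚ) : K) →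
      (∃ A B : ℕ, 1 ≤ A ∧ 1 ≤ B ∧ q₁ ^ A = q₃ ^ B) →
      (∃ A B : ℕ, 1 ≤ A ∧ 1 ≤ B ∧ q₂ ^ A = q₃ ^ B) →
      ∃ s t : ℕ, 1 ≤ s ∧ 1 ≤ t ∧ s * t ≤ N ∧
        (q₂ ^ s = q₃ ^ t ∨ q₁ ^ s = q₃ ^ t ∨ q₁ ^ s = q₂ ^ t) := by
    intro a b w
    by_cases hab : a = b
    · exact ⟨0, fun h => absurd hab h⟩
    · obtain ⟨N, hN⟩ := hlev2 a b w hab
      exact ⟨N, fun _ => hN⟩
  choose N2f hN2f using hlev3
  obtain ⟨N2, hN2⟩ : ∃ N, ∀ a b w, N2f a b w ≤ N := by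
    obtain ⟨M, hM⟩ := Finite.exists_le (fun w : Fin n × Fin n × Fin n => N2f w.1 w.2.1 w.2.2)
    exact ⟨M, fun i j l => hM (i, j, l)⟩
  refine ⟨N1 + N2, ?_⟩
  intro y hy hA3
  obtain ⟨z, hz⟩ : ∃ z : Fin n → Qb, ∀ i, z i = y i + ((c i : ℚ) : Qb) := ⟨_, fun _ => rfl⟩
  have hzC : ∀ i, ((z i : Qb) : ℂ) = (y i : ℂ) + ((c i : ℚ) : ℂ) := by
    intro i
    rw [hz]
    push_cast
    rfl
  have hzK : ∀ i, ι (z i) = ι (y i) + ((c i : ℚ) : K) := fun i => by rw [hz, map_add, hcq]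
  have htrans : ∀ (u v : Fin n) (s t : ℕ) (q q' : K), 1 ≤ s → 1 ≤ t → 0 < ‖q‖ → ‖q‖ < 1 →
      0 < ‖q'‖ → ‖q'‖ < 1 → jv U q = ι (y u) + ((c u : ℚ) : K) →
      jv U q' = ι (y v) + ((c v : ℚ) : K) → q ^ s = q' ^ t →
      ev2 (Psi (s * t)) ((y u : ℂ) + ((c u : ℚ) : ℂ)) ((y v : ℂ) + ((c v : ℚ) : ℂ)) = 0 := by
    intro u v s t q q' hs1 ht1 hq0 hq1 hq0' hq1' hj hj' hqq
    have h2 := hTQ U Psi K hPK s t hs1 ht1 q q' hq0 hq1 hq0' hq1' hqq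
    rw [hj, hj', ← hzK, ← hzK, ← hEH Qb K ι] at h2
    have h3 : ev2 (Psi (s * t)) (z u) (z v) = 0 := ι.injective (by rw [h2, map_zero])
    have h4 := hEH Qb ℂ (algebraMap Qb ℂ) (Psi (s * t)) (z u) (z v)
    rw [h3, map_zero] at h4
    rw [← hzC, ← hzC]
    exact h4.symm
  obtain ⟨hsym, htr⟩ := hKT U hU p hp hp5 K hExt
  have hik : ∀ u v, Isog ((y u : ℂ) + ((c u : ℚ) : ℂ)) ((y v : ℂ) + ((c v : ℚ) : ℂ)) →
      1 < ‖ι (z u)‖ → 1 < ‖ι (z v)‖ ∧ KI U (ι (z u)) (ι (z v)) := by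
    intro u v h h1
    exact hIK U Psi hU hPC p hp hp5 K hExt hPK ι (z u) (z v) (by rw [hzC, hzC]; exact h) h1
  have hnear : ∀ w, ‖ι (y w)‖ ≤ 1 → 1 < ‖ι (z w)‖ := by
    intro w hw
    have h3 : ‖ι (y w)‖ ≠ ‖((c w : ℚ) : K)‖ := by
      rw [hc]
      exact (hw.trans_lt hp1R).ne
    rw [hzK, IsUltrametricDist.norm_add_eq_max_of_norm_ne_norm h3, hc]
    exact hp1R.trans_le (le_max_right _ _)
  -- the main case distinction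
  have key0 : ∀ u v w : Fin n, u ≠ v → u ≠ w → v ≠ w → KI U (ι (z u)) (ι (z w)) →
      KI U (ι (z v)) (ι (z w)) → ‖ι (y w)‖ ≤ 1 → 1 < ‖ι (y v)‖ → ‖ι (y v)‖ ≤ ‖ι (y u)‖ →
      ∃ u v : Fin n, u ≠ v ∧ ∃ m : ℕ, 1 ≤ m ∧ m ≤ N1 + N2 ∧
        ev2 (Psi m) ((y u : ℂ) + ((c u : ℚ) : ℂ)) ((y v : ℂ) + ((c v : ℚ) : ℂ)) = 0 := by
    intro u v w huv huw hvw k1 k2 hw hv hvu
    obtain ⟨q₁, q₃, h10, h11, h30, h31, hj1, hj3, hd13⟩ := k1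
    obtain ⟨q₂, q₃', h20, h21, h30', h31', hj2, hj3', hd23⟩ := k2
    have hqq : q₃' = q₃ :=
      hTI U hU p hp hp5 K hExt q₃' q₃ h30' h31' h30 h31 (hj3'.trans hj3.symm)
    rw [hqq] at hd23
    rw [hzK] at hj1 hj2 hj3
    obtain ⟨s', t', hs', ht', hle, h⟩ := hN2f u v w huv y hy hw hv hvu q₁ q₂ q₃ h10 h11 h20 h21
      h30 h31 hj1 hj2 hj3 hd13 hd23
    have hle' : s' * t' ≤ N1 + N2 := (hle.trans (hN2 u v w)).trans (Nat.le_add_left _ _)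
    rcases h with h | h | h
    · exact ⟨v, w, hvw, s' * t', Nat.mul_pos hs' ht', hle',
        htrans v w s' t' q₂ q₃ hs' ht' h20 h21 h30 h31 hj2 hj3 h⟩
    · exact ⟨u, w, huw, s' * t', Nat.mul_pos hs' ht', hle',
        htrans u w s' t' q₁ q₃ hs' ht' h10 h11 h30 h31 hj1 hj3 h⟩
    · exact ⟨u, v, huv, s' * t', Nat.mul_pos hs' ht', hle',
        htrans u v s' t' q₁ q₂ hs' ht' h10 h11 h20 h21 hj1 hj2 h⟩
  have key1 : ∀ u w : Fin n, u ≠ w → KI U (ι (z u)) (ι (z w)) → ‖ι (y w)‖ ≤ 1 →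
      ‖ι (y u)‖ ≤ 1 → ∃ u v : Fin n, u ≠ v ∧ ∃ m : ℕ, 1 ≤ m ∧ m ≤ N1 + N2 ∧
        ev2 (Psi m) ((y u : ℂ) + ((c u : ℚ) : ℂ)) ((y v : ℂ) + ((c v : ℚ) : ℂ)) = 0 := by
    intro u w huw k1 hw hu
    obtain ⟨q, q', h10, h11, h30, h31, hj1, hj3, hd13⟩ := k1
    rw [hzK] at hj1 hj3
    have h1 := hst u w _ _ q q' hu hw h10 h11 h30 h31 (by rw [hcq]; exact hj1)
      (by rw [hcq]; exact hj3) hd13
    exact ⟨u, w, huw, s u w * t u w, Nat.mul_pos (hs u w) (ht u w),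
      (hN1 u w).trans (Nat.le_add_right _ _),
      htrans u w _ _ q q' (hs u w) (ht u w) h10 h11 h30 h31 hj1 hj3 h1⟩
  have key : ∀ u v w : Fin n, u ≠ v → u ≠ w → v ≠ w → KI U (ι (z u)) (ι (z w)) →
      KI U (ι (z v)) (ι (z w)) → ‖ι (y w)‖ ≤ 1 →
      ∃ u v : Fin n, u ≠ v ∧ ∃ m : ℕ, 1 ≤ m ∧ m ≤ N1 + N2 ∧
        ev2 (Psi m) ((y u : ℂ) + ((c u : ℚ) : ℂ)) ((y v : ℂ) + ((c v : ℚ) : ℂ)) = 0 := by
    intro u v w huv huw hvw k1 k2 hw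
    by_cases hu : ‖ι (y u)‖ ≤ 1
    · exact key1 u w huw k1 hw hu
    by_cases hv : ‖ι (y v)‖ ≤ 1
    · exact key1 v w hvw k2 hw hv
    push Not at hu hv
    rcases le_total ‖ι (y v)‖ ‖ι (y u)‖ with h | h
    · exact key0 u v w huv huw hvw k1 k2 hw hv h
    · exact key0 v u w huv.symm hvw huw k2 k1 hw hu h
  obtain ⟨i, j, l, hij, hjl, hil, h1, h2⟩ := hA3
  rcases hntp p hp (by omega) K hExt ι y hy i j l hij hjl hil with hI | hI | hI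
  · obtain ⟨h3, h4⟩ := hik i j h1 (hnear i hI)
    obtain ⟨h5, h6⟩ := hik j l h2 h3
    exact key j l i hjl hij.symm hil.symm (hsym _ _ h4) (hsym _ _ (htr _ _ _ h4 h6)) hI
  · obtain ⟨h3, h4⟩ := hik j i (hIS _ _ h1) (hnear j hI)
    obtain ⟨h5, h6⟩ := hik j l h2 (hnear j hI)
    exact key i l j hil hij hjl.symm (hsym _ _ h4) (hsym _ _ h6) hI
  · obtain ⟨h3, h4⟩ := hik l j (hIS _ _ h2) (hnear l hI)
    obtain ⟨h5, h6⟩ := hik j i (hIS _ _ h1) h3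
    exact key i j l hij hil hjl (hsym _ _ (htr _ _ _ h4 h6)) (hsym _ _ h4) hI

end

end Pool.Agent.ZP3.H13
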