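import Pool.Agent.Helper13_ZP3.RAYa

/-!
Squad ZP3, row RAY: Raynaud's argument modulo `p ^ (1 + δ)`.
-/

set_option autoImplicit false

namespace Pool.Agent.ZP3.H13

open Polynomial Pool.Agent.ZPT

noncomputable section

set_option linter.unusedSectionVars false

variable {K : Type} [NormedField K] [IsUltrametricDist K]

lemma Gev (G : K[X][X]) (τ x : K) : (G.map (Polynomial.evalRingHom τ)).eval x =
    ∑ i ∈ Finset.range (G.natDegree + 1), (G.coeff i).eval τ * x ^ i := by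
  rw [Polynomial.eval_map, Polynomial.eval₂_eq_sum_range]
  rfl

lemma cev (f : K[X]) (hf : ∀ j, ‖f.coeff j‖ ≤ 1) {τ : K} (hτ : ‖τ‖ ≤ 1) : ‖f.eval τ‖ ≤ 1 := by
  rw [Polynomial.eval_eq_sum_range]
  exact sumle _ _ fun i _ => mle (hf i) (ple hτ i)

lemma Gle (G : K[X][X]) (hG : ∀ i j, ‖(G.coeff i).coeff j‖ ≤ 1) {τ x : K} (hτ : ‖τ‖ ≤ 1)
    (hx : ‖x‖ ≤ 1) : ‖(G.map (Polynomial.evalRingHom τ)).eval x‖ ≤ 1 := by
  rw [Gev]
  exact sumle _ _ fun i _ => mle (cev _ (hG i) hτ) (ple hx i)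

lemma Gc (G : K[X][X]) (hG : ∀ i j, ‖(G.coeff i).coeff j‖ ≤ 1) {τ x y : K} (hτ : ‖τ‖ ≤ 1)
    (hx : ‖x‖ ≤ 1) (hy : ‖y‖ ≤ 1) (h : ‖x - y‖ < 1) :
    ‖(G.map (Polynomial.evalRingHom τ)).eval x - (G.map (Polynomial.evalRingHom τ)).eval y‖ < 1 := by
  rw [Gev, Gev, ← Finset.sum_sub_distrib]
  refine sumlt _ _ fun i _ => ?_
  rw [← mul_sub]
  exact mlt (cev _ (hG i) hτ) (powc hx hy h i)

lemma invc {x y : K} (hx : ‖x‖ = 1) (hy : ‖y‖ = 1) (h : ‖x - y‖ < 1) : ‖1 / x - 1 / y‖ < 1 := by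
  have hx0 : x ≠ 0 := by
    intro h0
    rw [h0, norm_zero] at hx
    exact zero_ne_one hx
  have hy0 : y ≠ 0 := by
    intro h0
    rw [h0, norm_zero] at hy
    exact zero_ne_one hy
  have h1 : 1 / x - 1 / y = -((x - y) / (x * y)) := by
    field_simp
    ring
  rw [h1, norm_neg, norm_div, norm_mul, hx, hy, mul_one, div_one]
  exact h

lemma norm1_of_cong {x y : K} (hx : ‖x‖ = 1) (h : ‖x - y‖ < 1) : ‖y‖ = 1 := by
  have h1 : y = x - (x - y) := by ring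
  have h2 : ‖y‖ ≤ 1 := by
    rw [h1]
    exact usle hx.le h.le
  refine le_antisymm h2 ?_
  by_contra h3
  push Not at h3
  have h4 : ‖x‖ < 1 := by
    have h5 : x = (x - y) + y := by ring
    rw [h5]
    exact ult h h3
  rw [hx] at h4
  exact lt_irrefl _ h4

/-- An unramified unit has an approximate `p`-th root that is an unramified unit. -/
lemma uroot [CharZero K] (urr : URRStmt) {p : ℕ} (hp : p.Prime) (hK : Ext p K) {a : K}
    (ha : Uu p a) : ∃ a₁ : K, Uu p a₁ ∧ ‖a₁ ^ p - a‖ ≤ (p : ℝ)⁻¹ := by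
  obtain ⟨⟨ha1, F, hF, hFa⟩, ha2⟩ := id ha
  have hpow : ∀ n : ℕ, Ur p (a ^ n) := by
    intro n
    induction n with
    | zero =>
      rw [pow_zero]
      have h1 := (urr p hp K hK).2.2.1 1
      rw [Int.cast_one] at h1
      exact h1
    | succ n ih =>
      rw [pow_succ]
      exact ((urr p hp K hK).1 _ _ ih ha.1).2.1
  refine ⟨a ^ p ^ (F - 1), ⟨hpow _, by rw [norm_pow, ha2, one_pow]⟩, ?_⟩
  rw [← pow_mul, ← pow_succ, Nat.sub_add_cancel hF]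
  exact hFa

/-- The relation at a point. -/
lemma ptrel [CharZero K] (urr : URRStmt) (urt : URTStmt) {p : ℕ} (hp : p.Prime) (h3 : 3 ≤ p)
    (hK : Ext p K) {a b a₁ b₁ x y x₁ y₁ g : K} {ε : ℝ} (ha₁ : Uu p a₁) (hb₁ : Uu p b₁)
    (haa : ‖a₁ ^ p - a‖ ≤ (p : ℝ)⁻¹) (hbb : ‖b₁ ^ p - b‖ ≤ (p : ℝ)⁻¹) (hx₁ : Tame p x₁)
    (hy₁ : Tame p y₁) (hx : x₁ ^ p = x) (hy : y₁ ^ p = y) (hg : ‖g‖ ≤ 1) (hε : ε < 1)
    (h : ‖a * x + b * y - 1 - (p : K) * g‖ ≤ ε * (p : ℝ)⁻¹) :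
    ‖Rr p (a₁ * x₁) - (a - a₁ ^ p) / p * x - (b - b₁ ^ p) / p * y + g‖ < 1 := by
  have hpn := normp (K := K) hp hK
  have hp0 : (p : K) ≠ 0 := by exact_mod_cast hp.ne_zero
  have hpinv : (p : ℝ)⁻¹ < 1 := inv_lt_one_of_one_lt₀ (by exact_mod_cast hp.one_lt)
  have hpinv0 : 0 < (p : ℝ)⁻¹ := by
    have h1 : (0 : ℝ) < p := by exact_mod_cast hp.pos
    positivity
  have hx1 : ‖x₁‖ = 1 := tnorm hx₁
  have hy1 : ‖y₁‖ = 1 := tnorm hy₁
  have hxn : ‖x‖ ≤ 1 := by rw [← hx]; exact ple hx1.le p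
  have hyn : ‖y‖ ≤ 1 := by rw [← hy]; exact ple hy1.le p
  have hu : ‖a₁ * x₁‖ ≤ 1 := mle ha₁.2.le hx1.le
  have hv : ‖b₁ * y₁‖ ≤ 1 := mle hb₁.2.le hy1.le
  have hup : (a₁ * x₁) ^ p = a₁ ^ p * x := by rw [mul_pow, hx]
  have hvp : (b₁ * y₁) ^ p = b₁ ^ p * y := by rw [mul_pow, hy]
  have hεp : ε * (p : ℝ)⁻¹ < (p : ℝ)⁻¹ := by
    calc ε * (p : ℝ)⁻¹ < 1 * (p : ℝ)⁻¹ := mul_lt_mul_of_pos_right hε hpinv0
      _ = (p : ℝ)⁻¹ := one_mul _
  -- `u + v ≡ 1` modulo the maximal ideal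
  have h4 : ‖(a₁ * x₁ + b₁ * y₁) ^ p - 1 ^ p‖ < 1 := by
    have h5 : (a₁ * x₁ + b₁ * y₁) ^ p - 1 ^ p =
        ((a₁ * x₁ + b₁ * y₁) ^ p - (a₁ * x₁) ^ p - (b₁ * y₁) ^ p) +
        (((a₁ ^ p - a) * x + (b₁ ^ p - b) * y) +
        ((a * x + b * y - 1 - (p : K) * g) + (p : K) * g)) := by
      rw [hup, hvp, one_pow]
      ring
    rw [h5]
    refine (ule (addp hp hK hu hv) (ule (ule ?_ ?_) (ule (h.trans hεp.le) ?_))).trans_lt hpinv
    · rw [norm_mul]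
      exact (mul_le_of_le_one_right (norm_nonneg _) hxn).trans haa
    · rw [norm_mul]
      exact (mul_le_of_le_one_right (norm_nonneg _) hyn).trans hbb
    · rw [norm_mul, hpn]
      exact mul_le_of_le_one_right hpinv0.le hg
  have h5 : ‖a₁ * x₁ + b₁ * y₁ - 1‖ < 1 := rootp hp hK (ule hu hv) (by simp) h4
  have hR := urr p hp K hK
  have hUx := ((urt p hp K hK).1 x₁ hx₁).1
  have hUy := ((urt p hp K hK).1 y₁ hy₁).1
  have hU1 : Ur p (1 : K) := by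
    have h1 := hR.2.2.1 1
    rw [Int.cast_one] at h1
    exact h1
  have hUu := (hR.1 a₁ x₁ ha₁.1 hUx).2.1
  have hUv := (hR.1 b₁ y₁ hb₁.1 hUy).2.1
  have hUy2 := (hR.1 _ _ (hR.1 _ _ hUu hUv).1 hU1).2.2.2
  have h6 := hR.2.2.2.1 _ hUy2 h5
  have h7 := keyR hp h3 hK hu hv h6
  rw [hup, hvp] at h7
  have h8 : (p : K) * (Rr p (a₁ * x₁) - (a - a₁ ^ p) / p * x - (b - b₁ ^ p) / p * y + g) =
      (a₁ ^ p * x + b₁ ^ p * y - 1 + (p : K) * Rr p (a₁ * x₁)) -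
        (a * x + b * y - 1 - (p : K) * g) := by
    field_simp
    ring
  have h9 : ((p : ℝ)⁻¹) ^ 2 < (p : ℝ)⁻¹ := by
    rw [pow_two]
    exact mul_lt_of_lt_one_left hpinv0 hpinv
  have h10 : ‖(p : K) * (Rr p (a₁ * x₁) - (a - a₁ ^ p) / p * x - (b - b₁ ^ p) / p * y + g)‖ <
      (p : ℝ)⁻¹ := by
    rw [h8]
    exact uslt (h7.trans_lt h9) (h.trans_lt hεp)
  rw [norm_mul, hpn] at h10
  by_contra h11
  push Not at h11
  exact absurd h10 (not_lt.2 (le_mul_of_one_le_right hpinv0.le h11))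

/-- Bounded order in a residue class. -/
lemma bord [CharZero K] (wtm : WTMStmt) {p : ℕ} (hp : p.Prime) (hK : Ext p K) (z : K) :
    ∃ M : ℕ, 1 ≤ M ∧ ∀ x : K, Tame p x → ‖x - z‖ < 1 → x ^ M = 1 := by
  by_cases h : ∃ x : K, Tame p x ∧ ‖x - z‖ < 1
  · obtain ⟨x₀, hx₀, h₀⟩ := h
    obtain ⟨M, hM, hpM, hM1⟩ := id hx₀
    refine ⟨M, hM, fun x hx hxz => ?_⟩
    have h1 : x = x₀ := by
      refine tuniq wtm hp hK hx hx₀ ?_
      have h2 : x - x₀ = (x - z) - (x₀ - z) := by ring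
      rw [h2]
      exact uslt hxz h₀
    rw [h1, hM1]
  · refine ⟨1, le_refl _, fun x hx hxz => ?_⟩
    exact absurd ⟨x, hx, hxz⟩ h

/-- The part of the polynomial which is a polynomial in `T ^ p`. -/
def HH (e : ℕ) (a b d a' b' : K) (G : K[X][X]) : K[X] :=
  (∑ i ∈ Finset.range (G.natDegree + 1), G.coeff i * C ((1 / d) ^ i) *
      X ^ (e * (G.natDegree + 1) - e * i)) +
    C (-(a' / d) + b' * a / (b * d)) * X ^ (e * (G.natDegree + 1) - e) +
    C (-(b' / b)) * X ^ (e * (G.natDegree + 1))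

lemma powsub {t : K} (ht : t ≠ 0) {e n i : ℕ} (h : e * i ≤ n) :
    t ^ (n - e * i) = t ^ n * (1 / t ^ e) ^ i := by
  have h1 : t ^ n = t ^ (n - e * i) * t ^ (e * i) := by
    rw [← pow_add, Nat.sub_add_cancel h]
  rw [h1, one_div, inv_pow, ← pow_mul, mul_assoc, mul_inv_cancel₀ (pow_ne_zero _ ht), mul_one]

lemma HHev (e : ℕ) (a b d a' b' : K) (hb : b ≠ 0) (hd : d ≠ 0) (G : K[X][X]) {τ : K}
    (hτ : τ ≠ 0) :
    (HH e a b d a' b' G).eval τ = τ ^ (e * (G.natDegree + 1)) *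
      (- (a' * (1 / (d * τ ^ e))) - b' * ((1 - a * (1 / (d * τ ^ e))) / b) +
        (G.map (Polynomial.evalRingHom τ)).eval (1 / (d * τ ^ e))) := by
  have hτe : τ ^ e ≠ 0 := pow_ne_zero _ hτ
  rw [Gev]
  unfold HH
  rw [eval_add, eval_add, eval_finsetSum]
  have h1 : ∀ i ∈ Finset.range (G.natDegree + 1),
      eval τ (G.coeff i * C ((1 / d) ^ i) * X ^ (e * (G.natDegree + 1) - e * i)) =
        τ ^ (e * (G.natDegree + 1)) * ((G.coeff i).eval τ * (1 / (d * τ ^ e)) ^ i) := by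
    intro i hi
    rw [Finset.mem_range] at hi
    rw [eval_mul, eval_mul, eval_C, eval_pow, eval_X,
      powsub hτ (Nat.mul_le_mul_left e (by omega : i ≤ G.natDegree + 1))]
    have h2 : (1 / (d * τ ^ e)) = (1 / d) * (1 / τ ^ e) := by
      field_simp
    rw [h2, mul_pow]
    ring
  rw [Finset.sum_congr rfl h1, ← Finset.mul_sum]
  have h3 : eval τ (C (-(a' / d) + b' * a / (b * d)) * X ^ (e * (G.natDegree + 1) - e)) =
      τ ^ (e * (G.natDegree + 1)) * ((-(a' / d) + b' * a / (b * d)) * (1 / τ ^ e)) := by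
    have h4 : e * (G.natDegree + 1) - e = e * (G.natDegree + 1) - e * 1 := by rw [mul_one]
    rw [h4, eval_mul, eval_C, eval_pow, eval_X,
      powsub hτ (Nat.mul_le_mul_left e (by omega : 1 ≤ G.natDegree + 1)), pow_one]
    ring
  rw [h3, eval_mul, eval_C, eval_pow, eval_X]
  field_simp
  ring

/-- The polynomial of the argument. -/
def NN (p e : ℕ) (a b d a' b' ν : K) (G : K[X][X]) : K[X] :=
  (∑ m ∈ Finset.range (p - 1), C (cc K p m * ν ^ (m + 1)) *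
      X ^ (p * (e * (G.natDegree + 1)) - e * (m + 1))) +
    expand K p (HH e a b d a' b' G)

lemma NNev {p e : ℕ} (a b d a' b' ν : K) (hb : b ≠ 0) (hd : d ≠ 0) (G : K[X][X])
    {τ t : K} (hτ : τ ≠ 0) (ht : t ^ p = τ) (ht0 : t ≠ 0) :
    (NN p e a b d a' b' ν G).eval t = t ^ (p * (e * (G.natDegree + 1))) *
      (Rr p (ν * (1 / t ^ e)) +
      (- (a' * (1 / (d * τ ^ e))) - b' * ((1 - a * (1 / (d * τ ^ e))) / b) +
        (G.map (Polynomial.evalRingHom τ)).eval (1 / (d * τ ^ e)))) := by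
  unfold NN
  rw [eval_add, expand_eval, ht, HHev e a b d a' b' hb hd G hτ, eval_finsetSum]
  have h1 : ∀ m ∈ Finset.range (p - 1), eval t (C (cc K p m * ν ^ (m + 1)) *
      X ^ (p * (e * (G.natDegree + 1)) - e * (m + 1))) =
      t ^ (p * (e * (G.natDegree + 1))) * (cc K p m * (ν * (1 / t ^ e)) ^ (m + 1)) := by
    intro m hm
    rw [Finset.mem_range] at hm
    have h2 : e * (m + 1) ≤ p * (e * (G.natDegree + 1)) := by
      calc e * (m + 1) ≤ e * p := Nat.mul_le_mul_left e (by omega)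
        _ = p * (e * 1) := by ring
        _ ≤ p * (e * (G.natDegree + 1)) :=
          Nat.mul_le_mul_left p (Nat.mul_le_mul_left e (by omega))
    rw [eval_mul, eval_C, eval_pow, eval_X, powsub ht0 h2, mul_pow]
    ring
  rw [Finset.sum_congr rfl h1, ← Finset.mul_sum]
  have h3 : τ ^ (e * (G.natDegree + 1)) = t ^ (p * (e * (G.natDegree + 1))) := by
    rw [← ht, ← pow_mul]
  rw [h3, ← mul_add]
  rfl

lemma NNcoeff {p e : ℕ} (hp : p.Prime) (h3 : 3 ≤ p) (he : 1 ≤ e) (hpe : ¬ p ∣ e)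
    (a b d a' b' ν : K) (G : K[X][X]) :
    (NN p e a b d a' b' ν G).coeff (p * (e * (G.natDegree + 1)) - e) = ν := by
  unfold NN
  have hle : e ≤ p * (e * (G.natDegree + 1)) := by
    calc e = 1 * (e * 1) := by ring
      _ ≤ p * (e * (G.natDegree + 1)) :=
        Nat.mul_le_mul hp.pos (Nat.mul_le_mul_left e (by omega))
  rw [coeff_add, coeff_expand hp.pos, if_neg, add_zero, finsetSum_coeff]
  · rw [Finset.sum_eq_single 0]
    · rw [coeff_C_mul_X_pow, if_pos (by rw [zero_add, mul_one]), cc0 hp, zero_add, pow_one,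
        one_mul]
    · intro m hm hm0
      rw [Finset.mem_range] at hm
      rw [coeff_C_mul_X_pow, if_neg]
      intro h1
      have h2 : e * (m + 1) ≤ p * (e * (G.natDegree + 1)) := by
        calc e * (m + 1) ≤ e * p := Nat.mul_le_mul_left e (by omega)
          _ = p * (e * 1) := by ring
          _ ≤ p * (e * (G.natDegree + 1)) :=
            Nat.mul_le_mul_left p (Nat.mul_le_mul_left e (by omega))
      have h4 : e = e * (m + 1) := by omega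
      have h5 : e * (m + 1) = e + e * m := by ring
      have h6 : 0 < e * m := Nat.mul_pos he (Nat.pos_of_ne_zero hm0)
      omega
    · intro h1
      exact absurd (Finset.mem_range.2 (by omega)) h1
  · intro h1
    have h2 : p ∣ p * (e * (G.natDegree + 1)) := Dvd.intro _ rfl
    have h4 : p ∣ e := by
      have h5 := (Nat.dvd_sub_iff_right hle h2).1 h1
      exact h5
    exact hpe h4

/-- RAY -/
theorem ray (urr : URRStmt) (urt : URTStmt) (gnr : GNRStmt) (wtm : WTMStmt) : RAYStmt := by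
  intro p hp h5 K _ _ _ _ hK e a b d G ε he hpe ha hb hd hG hε
  have hpn := normp (K := K) hp hK
  have hp0 : (p : K) ≠ 0 := by exact_mod_cast hp.ne_zero
  have hpinv : (p : ℝ)⁻¹ < 1 := inv_lt_one_of_one_lt₀ (by exact_mod_cast hp.one_lt)
  have hpinv0 : 0 < (p : ℝ)⁻¹ := by
    have h1 : (0 : ℝ) < p := by exact_mod_cast hp.pos
    positivity
  have hεp : ε * (p : ℝ)⁻¹ < (p : ℝ)⁻¹ := by
    calc ε * (p : ℝ)⁻¹ < 1 * (p : ℝ)⁻¹ := mul_lt_mul_of_pos_right hε hpinv0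
      _ = (p : ℝ)⁻¹ := one_mul _
  have ne0 : ∀ z : K, ‖z‖ = 1 → z ≠ 0 := by
    intro z hz h0
    rw [h0, norm_zero] at hz
    exact zero_ne_one hz
  have hb0 : b ≠ 0 := ne0 b hb.2
  have hd0 : d ≠ 0 := ne0 d hd
  obtain ⟨a₁, ha₁, haa⟩ := uroot urr hp hK ha
  obtain ⟨b₁, hb₁, hbb⟩ := uroot urr hp hK hb
  obtain ⟨d₁, hd₁⟩ := IsAlgClosed.exists_pow_nat_eq d hp.pos
  have proot : ∀ z w : K, w ^ p = z → ‖z‖ = 1 → ‖w‖ = 1 := by
    intro z w hw hz
    have h1 : ‖w‖ ^ p = 1 := by rw [← norm_pow, hw, hz]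
    exact (pow_eq_one_iff_of_nonneg (norm_nonneg _) hp.ne_zero).1 h1
  have hd₁n : ‖d₁‖ = 1 := proot d d₁ hd₁ hd
  have hd₁0 : d₁ ≠ 0 := ne0 d₁ hd₁n
  have ha'n : ‖(a - a₁ ^ p) / (p : K)‖ ≤ 1 := by
    rw [norm_div, hpn, norm_sub_rev]
    exact div_le_one_of_le₀ haa hpinv0.le
  have hb'n : ‖(b - b₁ ^ p) / (p : K)‖ ≤ 1 := by
    rw [norm_div, hpn, norm_sub_rev]
    exact div_le_one_of_le₀ hbb hpinv0.le
  set a' : K := (a - a₁ ^ p) / (p : K) with ha'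
  set b' : K := (b - b₁ ^ p) / (p : K) with hb'
  have hνn : ‖a₁ / d₁‖ = 1 := by rw [norm_div, ha₁.2, hd₁n, div_one]
  obtain ⟨R, hR⟩ := gnr K (NN p e a b d a' b' (a₁ / d₁) G)
    ⟨_, by rw [NNcoeff hp (by omega) he hpe, hνn]⟩
  have hM := fun ρ : K => bord wtm hp hK (1 / (d * ρ ^ (p * e)))
  choose Mf hM1 hM2 using hM
  refine ⟨∏ ρ ∈ R, Mf ρ, Nat.succ_le_of_lt (Finset.prod_pos fun ρ _ => hM1 ρ), ?_⟩
  intro x y τ hx hy hτ hdx h
  have hxn := tnorm hx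
  have hyn := tnorm hy
  have hτ0 := ne0 τ hτ
  obtain ⟨x₁, hx₁, hx₁p⟩ := troot hp hx
  obtain ⟨y₁, hy₁, hy₁p⟩ := troot hp hy
  obtain ⟨t, ht⟩ := IsAlgClosed.exists_pow_nat_eq τ hp.pos
  have htn : ‖t‖ = 1 := proot τ t ht hτ
  have ht0 := ne0 t htn
  have hg := Gle G hG hτ.le hxn.le
  have hrel := ptrel urr urt hp (by omega : 3 ≤ p) hK ha₁ hb₁ haa hbb hx₁ hy₁ hx₁p hy₁p hg hε h
  rw [← ha', ← hb'] at hrel
  -- the point `x'`
  have hx'n : ‖1 / (d * τ ^ e)‖ = 1 := by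
    rw [norm_div, norm_mul, norm_pow, hτ, hd, norm_one, one_pow, mul_one, div_one]
  have hxx : ‖1 / (d * τ ^ e) - x‖ < 1 := by
    have h1 : 1 / (d * τ ^ e) - x = (1 / τ ^ e - d * x) / d := by
      field_simp
    rw [h1, norm_div, hd, div_one]
    exact hdx
  have hθ : ‖1 / (d₁ * t ^ e) - x₁‖ < 1 := by
    refine rootp hp hK ?_ (tnorm hx₁).le ?_
    · rw [norm_div, norm_mul, norm_pow, htn, hd₁n, norm_one, one_pow, mul_one, div_one]
    · have h1 : (1 / (d₁ * t ^ e)) ^ p = 1 / (d * τ ^ e) := by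
        rw [div_pow, one_pow, mul_pow, hd₁, ← ht, ← pow_mul, ← pow_mul, mul_comm e p]
      rw [h1, hx₁p]
      exact hxx
  have hRr : ‖Rr p (a₁ / d₁ * (1 / t ^ e)) - Rr p (a₁ * x₁)‖ < 1 := by
    refine Rrc ?_ (mle ha₁.2.le (tnorm hx₁).le) ?_
    · refine mle hνn.le ?_
      rw [norm_div, norm_pow, htn, norm_one, one_pow, div_one]
    · have h1 : a₁ / d₁ * (1 / t ^ e) - a₁ * x₁ = a₁ * (1 / (d₁ * t ^ e) - x₁) := by
        field_simp
      rw [h1]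
      exact mlt ha₁.2.le hθ
  have hYc : ‖(1 - a * (1 / (d * τ ^ e))) / b - y‖ < 1 := by
    have h1 : (1 - a * (1 / (d * τ ^ e))) / b - y =
        (-((a * x + b * y - 1 - (p : K) * (G.map (Polynomial.evalRingHom τ)).eval x) +
          (p : K) * (G.map (Polynomial.evalRingHom τ)).eval x) -
          a * (1 / (d * τ ^ e) - x)) / b := by
      field_simp
      ring
    rw [h1, norm_div, hb.2, div_one]
    refine uslt ?_ (mlt ha.2.le hxx)
    rw [norm_neg]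
    refine ult (h.trans_lt (hεp.trans hpinv)) ?_
    rw [norm_mul, hpn]
    exact (mul_le_of_le_one_right hpinv0.le hg).trans_lt hpinv
  have hGc := Gc G hG hτ.le hx'n.le hxn.le hxx
  have hN : ‖(NN p e a b d a' b' (a₁ / d₁) G).eval t‖ < 1 := by
    rw [NNev a b d a' b' (a₁ / d₁) hb0 hd0 G hτ0 ht ht0, norm_mul, norm_pow, htn, one_pow,
      one_mul]
    have h1 : Rr p (a₁ / d₁ * (1 / t ^ e)) +
        (-(a' * (1 / (d * τ ^ e))) - b' * ((1 - a * (1 / (d * τ ^ e))) / b) +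
          eval (1 / (d * τ ^ e)) (Polynomial.map (evalRingHom τ) G)) =
        (Rr p (a₁ * x₁) - a' * x - b' * y +
          (G.map (Polynomial.evalRingHom τ)).eval x) +
        ((Rr p (a₁ / d₁ * (1 / t ^ e)) - Rr p (a₁ * x₁)) +
        ((- (a' * (1 / (d * τ ^ e) - x)) - b' * ((1 - a * (1 / (d * τ ^ e))) / b - y)) +
          (eval (1 / (d * τ ^ e)) (Polynomial.map (evalRingHom τ) G) -
            eval x (Polynomial.map (evalRingHom τ) G)))) := by ring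
    rw [h1]
    refine ult hrel (ult hRr (ult (uslt ?_ (mlt hb'n hYc)) hGc))
    rw [norm_neg]
    exact mlt ha'n hxx
  obtain ⟨ρ, hρR, hρ⟩ := hR t htn.le hN
  have hρn : ‖ρ‖ = 1 := norm1_of_cong htn hρ
  have h8 : x ^ Mf ρ = 1 := by
    refine hM2 ρ x hx ?_
    have h9 : x - 1 / (d * ρ ^ (p * e)) = -(1 / (d * τ ^ e) - x) +
        (1 / d) * (1 / t ^ (p * e) - 1 / ρ ^ (p * e)) := by
      have h10 : τ ^ e = t ^ (p * e) := by rw [← ht, ← pow_mul]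
      rw [h10]
      have h11 : ρ ^ (p * e) ≠ 0 := pow_ne_zero _ (ne0 ρ hρn)
      have h12 : t ^ (p * e) ≠ 0 := pow_ne_zero _ ht0
      field_simp
      ring
    rw [h9]
    refine ult (by rw [norm_neg]; exact hxx) (mlt ?_ (invc ?_ ?_ (powc htn.le hρn.le hρ _)))
    · rw [norm_div, hd, norm_one, div_one]
    · rw [norm_pow, htn, one_pow]
    · rw [norm_pow, hρn, one_pow]
  obtain ⟨c, hc⟩ := Finset.dvd_prod_of_mem Mf hρR
  rw [hc, pow_mul, h8, one_pow]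

end

end Pool.Agent.ZP3.H13
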