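import Pool.Agent.ZP3.Stmts

/-!
Squad ZP3, row RAY: general lemmas on ultrametric fields used in Raynaud's argument.
-/

set_option autoImplicit false

namespace Pool.Agent.ZP3.H13

open Polynomial Pool.Agent.ZPT

noncomputable section

/-- The ring of integral elements. -/
def OO (K : Type) [NormedField K] [IsUltrametricDist K] : Subring K where
  carrier := {x | ‖x‖ ≤ 1}
  mul_mem' := by
    intro a b ha hb
    have ha' : ‖a‖ ≤ 1 := ha
    have hb' : ‖b‖ ≤ 1 := hb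
    show ‖a * b‖ ≤ 1
    rw [norm_mul]
    exact mul_le_one₀ ha' (norm_nonneg _) hb'
  one_mem' := by simp
  add_mem' := by
    intro a b ha hb
    exact (IsUltrametricDist.norm_add_le_max _ _).trans (max_le ha hb)
  zero_mem' := by simp
  neg_mem' := by
    intro a ha
    simpa using ha

set_option linter.unusedSectionVars false

variable {K : Type} [NormedField K] [IsUltrametricDist K]

lemma ule {x y : K} {r : ℝ} (hx : ‖x‖ ≤ r) (hy : ‖y‖ ≤ r) : ‖x + y‖ ≤ r :=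
  (IsUltrametricDist.norm_add_le_max _ _).trans (max_le hx hy)

lemma ult {x y : K} {r : ℝ} (hx : ‖x‖ < r) (hy : ‖y‖ < r) : ‖x + y‖ < r :=
  (IsUltrametricDist.norm_add_le_max _ _).trans_lt (max_lt hx hy)

lemma usle {x y : K} {r : ℝ} (hx : ‖x‖ ≤ r) (hy : ‖y‖ ≤ r) : ‖x - y‖ ≤ r := by
  rw [sub_eq_add_neg]
  exact ule hx (by rwa [norm_neg])

lemma uslt {x y : K} {r : ℝ} (hx : ‖x‖ < r) (hy : ‖y‖ < r) : ‖x - y‖ < r := by
  rw [sub_eq_add_neg]
  exact ult hx (by rwa [norm_neg])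

lemma sumlt {ι : Type} (s : Finset ι) (f : ι → K) (h : ∀ i ∈ s, ‖f i‖ < 1) :
    ‖∑ i ∈ s, f i‖ < 1 := by
  classical
  induction s using Finset.induction_on with
  | empty => simp
  | insert a s ha ih =>
    rw [Finset.sum_insert ha]
    exact ult (h a (Finset.mem_insert_self _ _))
      (ih fun i hi => h i (Finset.mem_insert_of_mem hi))

lemma sumle {ι : Type} (s : Finset ι) (f : ι → K) (h : ∀ i ∈ s, ‖f i‖ ≤ 1) :
    ‖∑ i ∈ s, f i‖ ≤ 1 := by
  classical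
  induction s using Finset.induction_on with
  | empty => simp
  | insert a s ha ih =>
    rw [Finset.sum_insert ha]
    exact ule (h a (Finset.mem_insert_self _ _))
      (ih fun i hi => h i (Finset.mem_insert_of_mem hi))

lemma mlt {x y : K} (hx : ‖x‖ ≤ 1) (hy : ‖y‖ < 1) : ‖x * y‖ < 1 := by
  rw [norm_mul]
  exact (mul_le_of_le_one_left (norm_nonneg _) hx).trans_lt hy

lemma mle {x y : K} (hx : ‖x‖ ≤ 1) (hy : ‖y‖ ≤ 1) : ‖x * y‖ ≤ 1 := by
  rw [norm_mul]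
  exact mul_le_one₀ hx (norm_nonneg _) hy

lemma ple {x : K} (hx : ‖x‖ ≤ 1) (n : ℕ) : ‖x ^ n‖ ≤ 1 := by
  rw [norm_pow]
  exact pow_le_one₀ (norm_nonneg _) hx

lemma powc {u v : K} (hu : ‖u‖ ≤ 1) (hv : ‖v‖ ≤ 1) (h : ‖u - v‖ < 1) (n : ℕ) :
    ‖u ^ n - v ^ n‖ < 1 := by
  induction n with
  | zero => simp
  | succ n ih =>
    have h1 : u ^ (n + 1) - v ^ (n + 1) = u ^ n * (u - v) + v * (u ^ n - v ^ n) := by ring
    rw [h1]
    exact ult (mlt (ple hu n) h) (mlt hv ih)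

lemma normp [CharZero K] {p : ℕ} (hp : p.Prime) (hK : Ext p K) : ‖(p : K)‖ = (p : ℝ)⁻¹ := by
  have h := hK (p : ℚ)
  rw [padicNorm.padicNorm_p hp.one_lt] at h
  push_cast at h
  exact h

lemma dvdn [CharZero K] {p : ℕ} (hp : p.Prime) (hK : Ext p K) (x : OO K) (k : ℕ) :
    ((p : OO K) ^ k ∣ x) ↔ ‖(x : K)‖ ≤ ((p : ℝ)⁻¹) ^ k := by
  have hpn := normp (K := K) hp hK
  have hp0 : (p : K) ≠ 0 := by exact_mod_cast hp.ne_zero
  constructor
  · rintro ⟨y, rfl⟩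
    push_cast
    rw [norm_mul, norm_pow, hpn]
    exact mul_le_of_le_one_right (by positivity) y.2
  · intro h
    have h1 : ‖(x : K) / (p : K) ^ k‖ ≤ 1 := by
      rw [norm_div, norm_pow, hpn]
      exact div_le_one_of_le₀ h (by positivity)
    refine ⟨⟨(x : K) / (p : K) ^ k, h1⟩, ?_⟩
    apply Subtype.ext
    push_cast
    field_simp

lemma addp [CharZero K] {p : ℕ} (hp : p.Prime) (hK : Ext p K) {u v : K} (hu : ‖u‖ ≤ 1)
    (hv : ‖v‖ ≤ 1) : ‖(u + v) ^ p - u ^ p - v ^ p‖ ≤ (p : ℝ)⁻¹ := by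
  obtain ⟨r, hr⟩ := exists_add_pow_prime_eq hp (⟨u, hu⟩ : OO K) ⟨v, hv⟩
  have h1 := congrArg (fun z : OO K => (z : K)) hr
  push_cast at h1
  rw [h1]
  have h2 : u ^ p + v ^ p + (p : K) * u * v * (r : K) - u ^ p - v ^ p =
      (p : K) * (u * v * (r : K)) := by ring
  rw [h2, norm_mul, normp hp hK]
  exact mul_le_of_le_one_right (by positivity) (mle (mle hu hv) r.2)

lemma powp [CharZero K] {p : ℕ} (hp : p.Prime) (hK : Ext p K) {u v : K} (hu : ‖u‖ ≤ 1)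
    (hv : ‖v‖ ≤ 1) (h : ‖u - v‖ ≤ (p : ℝ)⁻¹) : ‖u ^ p - v ^ p‖ ≤ ((p : ℝ)⁻¹) ^ 2 := by
  have h1 : (p : OO K) ∣ (⟨u, hu⟩ : OO K) - ⟨v, hv⟩ := by
    have h2 := (dvdn hp hK ((⟨u, hu⟩ : OO K) - ⟨v, hv⟩) 1).2 (by
      rw [pow_one]
      exact h)
    rwa [pow_one] at h2
  have h3 := dvd_sub_pow_of_dvd_sub h1 1
  have h4 := (dvdn hp hK _ 2).1 h3
  push_cast at h4
  rwa [pow_one] at h4

lemma rootp [CharZero K] {p : ℕ} (hp : p.Prime) (hK : Ext p K) {u v : K} (hu : ‖u‖ ≤ 1)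
    (hv : ‖v‖ ≤ 1) (h : ‖u ^ p - v ^ p‖ < 1) : ‖u - v‖ < 1 := by
  have hpinv : (p : ℝ)⁻¹ < 1 := inv_lt_one_of_one_lt₀ (by exact_mod_cast hp.one_lt)
  have h1 := (addp hp hK (u := u - v) (v := v) (usle hu hv) hv).trans_lt hpinv
  rw [sub_add_cancel] at h1
  have h2 : ‖(u - v) ^ p‖ < 1 := by
    have h3 : (u - v) ^ p = (u ^ p - v ^ p) - (u ^ p - (u - v) ^ p - v ^ p) := by ring
    rw [h3]
    exact uslt h h1
  rw [norm_pow] at h2
  by_contra h4
  push Not at h4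
  exact absurd h2 (not_lt.2 (one_le_pow₀ h4))

lemma tnorm {p : ℕ} {x : K} (hx : Tame p x) : ‖x‖ = 1 := by
  obtain ⟨M, hM, -, h⟩ := hx
  have h1 : ‖x‖ ^ M = 1 := by rw [← norm_pow, h, norm_one]
  exact (pow_eq_one_iff_of_nonneg (norm_nonneg _) (by omega)).1 h1

lemma tne {p : ℕ} {x : K} (hx : Tame p x) : x ≠ 0 := by
  intro h
  have h1 := tnorm hx
  rw [h, norm_zero] at h1
  exact zero_ne_one h1

/-- Tame roots of unity have tame `p`-th roots. -/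
lemma troot {p : ℕ} (hp : p.Prime) {x : K} (hx : Tame p x) : ∃ y : K, Tame p y ∧ y ^ p = x := by
  obtain ⟨M, hM, hpM, h⟩ := hx
  have hc : Nat.Coprime p M := (Nat.Prime.coprime_iff_not_dvd hp).2 hpM
  obtain ⟨s, hs⟩ : ∃ s : ℕ, p * s ≡ 1 [MOD M] := by
    refine ⟨p ^ (Nat.totient M - 1), ?_⟩
    have h1 : 0 < Nat.totient M := Nat.totient_pos.2 hM
    rw [← pow_succ', Nat.sub_add_cancel h1]
    exact Nat.ModEq.pow_totient hc
  refine ⟨x ^ s, ⟨M, hM, hpM, ?_⟩, ?_⟩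
  · rw [← pow_mul, mul_comm, pow_mul, h, one_pow]
  · rw [← pow_mul, mul_comm]
    have h1 : x ^ (p * s) = x ^ 1 := by
      have h2 : ∀ n : ℕ, x ^ n = x ^ (n % M) := by
        intro n
        conv_lhs => rw [← Nat.div_add_mod n M, pow_add, pow_mul, h, one_pow, one_mul]
      rw [h2 (p * s), h2 1, hs]
    rw [h1, pow_one]

/-- Congruent tame roots of unity are equal. -/
lemma tuniq [CharZero K] (wtm : WTMStmt) {p : ℕ} (hp : p.Prime) (hK : Ext p K) {x y : K}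
    (hx : Tame p x) (hy : Tame p y) (h : ‖x - y‖ < 1) : x = y := by
  have hy0 := tne hy
  have h1 : x / y = 1 := by
    refine wtm p hp K hK _ ?_ ?_
    · obtain ⟨M, hM, hpM, h1⟩ := hx
      obtain ⟨M', hM', hpM', h1'⟩ := hy
      refine ⟨M * M', Nat.mul_pos hM hM', ?_, ?_⟩
      · intro h2
        rcases (Nat.Prime.dvd_mul hp).1 h2 with h3 | h3
        · exact hpM h3
        · exact hpM' h3
      · rw [div_pow, pow_mul, h1, one_pow, mul_comm, pow_mul, h1', one_pow, div_one]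
    · have h2 : x / y - 1 = (x - y) / y := by field_simp
      rw [h2, norm_div, tnorm hy, div_one]
      exact h
  rw [div_eq_one_iff_eq hy0] at h1
  exact h1

/-- The coefficients of `(1 - u ^ p - (1 - u) ^ p) / p`. -/
def cc (K : Type) [NormedField K] (p m : ℕ) : K := (-1) ^ m * ((p.choose (m + 1) / p : ℕ) : K)

/-- The polynomial `(1 - u ^ p - (1 - u) ^ p) / p`. -/
def Rr (p : ℕ) (u : K) : K := ∑ m ∈ Finset.range (p - 1), cc K p m * u ^ (m + 1)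

lemma cc0 {p : ℕ} (hp : p.Prime) : cc K p 0 = 1 := by
  unfold cc
  rw [zero_add, Nat.choose_one_right, Nat.div_self hp.pos]
  simp

lemma ccle (p m : ℕ) : ‖cc K p m‖ ≤ 1 := by
  unfold cc
  rw [norm_mul, norm_pow, norm_neg, norm_one, one_pow, one_mul]
  exact IsUltrametricDist.norm_natCast_le_one K _

lemma Rrid {p : ℕ} (hp : p.Prime) (h3 : 3 ≤ p) (u : K) :
    (1 - u) ^ p = 1 - u ^ p - (p : K) * Rr p u := by
  have hodd : Odd p := hp.odd_of_ne_two (by omega)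
  have h1 : (1 - u) ^ p = (-u + 1) ^ p := by ring
  rw [h1, add_pow]
  have h2 : p = p - 1 + 1 := by omega
  rw [Finset.sum_range_succ]
  have h4 : ∑ m ∈ Finset.range p, (-u) ^ m * 1 ^ (p - m) * (p.choose m : K) =
      ∑ m ∈ Finset.range (p - 1), (-u) ^ (m + 1) * 1 ^ (p - (m + 1)) * (p.choose (m + 1) : K) +
        (-u) ^ 0 * 1 ^ (p - 0) * (p.choose 0 : K) := by
    conv_lhs => rw [h2]
    rw [Finset.sum_range_succ']
    congr 1
    · refine Finset.sum_congr rfl fun m _ => ?_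
      rw [← h2]
    · rw [← h2]
  rw [h4]
  have h5 : ∑ m ∈ Finset.range (p - 1), (-u) ^ (m + 1) * 1 ^ (p - (m + 1)) *
      (p.choose (m + 1) : K) = - ((p : K) * Rr p u) := by
    unfold Rr
    rw [Finset.mul_sum, ← Finset.sum_neg_distrib]
    refine Finset.sum_congr rfl fun m hm => ?_
    rw [Finset.mem_range] at hm
    have h6 : p ∣ p.choose (m + 1) := hp.dvd_choose_self (by omega) (by omega)
    have h7 : (p.choose (m + 1) : K) = (p : K) * ((p.choose (m + 1) / p : ℕ) : K) := by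
      rw [← Nat.cast_mul, Nat.mul_div_cancel' h6]
    unfold cc
    rw [h7, one_pow, neg_pow u (m + 1)]
    ring
  rw [h5, hodd.neg_pow]
  simp only [pow_zero, one_pow, Nat.choose_zero_right, Nat.cast_one, mul_one, Nat.sub_self,
    Nat.choose_self]
  ring

lemma Rrc {p : ℕ} {u v : K} (hu : ‖u‖ ≤ 1) (hv : ‖v‖ ≤ 1) (h : ‖u - v‖ < 1) :
    ‖Rr p u - Rr p v‖ < 1 := by
  unfold Rr
  rw [← Finset.sum_sub_distrib]
  refine sumlt _ _ fun m _ => ?_
  rw [← mul_sub]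
  exact mlt (ccle p m) (powc hu hv h _)

/-- `u + v ≡ 1` modulo `p` gives `u ^ p + v ^ p ≡ 1 - p Rr u` modulo `p ^ 2`. -/
lemma keyR [CharZero K] {p : ℕ} (hp : p.Prime) (h3 : 3 ≤ p) (hK : Ext p K) {u v : K}
    (hu : ‖u‖ ≤ 1) (hv : ‖v‖ ≤ 1) (h : ‖u + v - 1‖ ≤ (p : ℝ)⁻¹) :
    ‖u ^ p + v ^ p - 1 + (p : K) * Rr p u‖ ≤ ((p : ℝ)⁻¹) ^ 2 := by
  have h1 : ‖(1 - u : K)‖ ≤ 1 := usle (by simp) hu
  have h2 : ‖v - (1 - u)‖ ≤ (p : ℝ)⁻¹ := by
    have h4 : v - (1 - u) = u + v - 1 := by ring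
    rw [h4]
    exact h
  have h4 := powp hp hK hv h1 h2
  rw [Rrid hp h3] at h4
  have h5 : u ^ p + v ^ p - 1 + (p : K) * Rr p u = v ^ p - (1 - u ^ p - (p : K) * Rr p u) := by
    ring
  rw [h5]
  exact h4

end

end Pool.Agent.ZP3.H13
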